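import Mathlib

/-!
# The residual spectrum of the stochastic adding machine operator is empty

Digits are indexed from `0`, and the bases are written `d r + 2`, so that all the
sequences of bases `≥ 2` (bounded or not) are covered.
-/

open Topology Filter Finset

namespace Pool.Agent.Results.MP_8907f9_an.ResidualEmpty

/-- The Cantor system with the bases `d r + 2`: the product of the finite discrete spaces
of digits, with the product topology. -/
abbrev Gam (d : ℕ → ℕ) : Type := (r : ℕ) → Fin (d r + 2)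

variable {d : ℕ → ℕ}

/-- The first `k` digits of `x` are maximal. -/
def AllMax (x : Gam d) (k : ℕ) : Prop := ∀ i < k, x i = Fin.last (d i + 1)

open Classical in
/-- `V x = x + 1`, with carries: a digit is changed (cyclically, by one) iff all the digits
before it are maximal. -/
noncomputable def V (x : Gam d) : Gam d := fun r => if AllMax x r then x r + 1 else x r

/-- `T s x`: the first `s` digits are replaced by `0`. -/
def T (s : ℕ) (x : Gam d) : Gam d := fun r => if r < s then 0 else x r

open Classical in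
/-- The formula of the stochastic adding machine operator. The coefficient of `g (V x)` is the
product of `p r` over the indices `r` such that all digits before `r` are maximal (these are the
`r ≤ s_x` in the notation with indices from `1`), an infinite product if all digits are
maximal; the sum is over the `s ≥ 1` such that the first `s` digits are maximal. -/
noncomputable def addingMachine (p : ℕ → ℝ) (g : Gam d → ℂ) (x : Gam d) : ℂ :=
  ((1 - p 0 : ℝ) : ℂ) * g x + ((∏' r : ℕ, (if AllMax x r then p r else 1) : ℝ) : ℂ) * g (V x) +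
    ∑' s : ℕ, if AllMax x (s + 1) then
      (((∏ r ∈ range (s + 1), p r) * (1 - p (s + 1)) : ℝ) : ℂ) * g (T (s + 1) x) else 0

/-- The residual spectrum of a bounded operator. -/
def residualSpectrum {X : Type*} [NormedAddCommGroup X] [NormedSpace ℂ X] (S : X →L[ℂ] X) :
    Set ℂ :=
  {l | Function.Injective (S - l • ContinuousLinearMap.id ℂ X) ∧
    closure (Set.range (S - l • ContinuousLinearMap.id ℂ X)) ≠ Set.univ}

open Classical in
/-- local weights -/
noncomputable def w (p : ℕ → ℝ) (x : Gam d) (r : ℕ) : ℝ := if AllMax x r then p r else 1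

/-- partial products -/
noncomputable def W (p : ℕ → ℝ) (x : Gam d) (s : ℕ) : ℝ := ∏ i ∈ range s, w p x i

/-- total product -/
noncomputable def Winf (p : ℕ → ℝ) (x : Gam d) : ℝ := ∏' r, w p x r

section
variable {p : ℕ → ℝ} (hp : ∀ r, 0 < p r ∧ p r ≤ 1)
include hp

lemma w_pos (x : Gam d) (r : ℕ) : 0 < w p x r := by
  unfold w; split_ifs
  · exact (hp r).1
  · exact one_pos

lemma w_le (x : Gam d) (r : ℕ) : w p x r ≤ 1 := by
  unfold w; split_ifs
  · exact (hp r).2
  · exact le_rfl

lemma W_pos (x : Gam d) (s : ℕ) : 0 < W p x s := prod_pos fun i _ => w_pos hp x i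

lemma W_anti (x : Gam d) (s : ℕ) : W p x (s + 1) ≤ W p x s := by
  unfold W
  rw [prod_range_succ]
  exact mul_le_of_le_one_right (prod_pos fun i _ => w_pos hp x i).le (w_le hp x s)

lemma hasProd_w (x : Gam d) : Multipliable (w p x) := by
  have hanti : Antitone (fun s : Finset ℕ => ∏ i ∈ s, w p x i) := by
    intro s t hst
    simp only
    rw [← prod_sdiff hst]
    exact mul_le_of_le_one_left (prod_pos fun i _ => w_pos hp x i).le
      (prod_le_one (fun i _ => (w_pos hp x i).le) fun i _ => w_le hp x i)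
  have hb : BddBelow (Set.range (fun s : Finset ℕ => ∏ i ∈ s, w p x i)) := by
    refine ⟨0, ?_⟩
    rintro _ ⟨s, rfl⟩
    exact (prod_pos fun i _ => w_pos hp x i).le
  exact ⟨_, tendsto_atTop_ciInf hanti hb⟩

lemma tendsto_W (x : Gam d) : Tendsto (W p x) atTop (𝓝 (Winf p x)) :=
  (hasProd_w hp x).hasProd.tendsto_prod_nat

lemma hasSum_W (x : Gam d) : HasSum (fun s => W p x s - W p x (s + 1)) (1 - Winf p x) := by
  rw [hasSum_iff_tendsto_nat_of_nonneg (fun s => sub_nonneg.2 (W_anti hp x s))]
  have : ∀ n, ∑ i ∈ range n, (W p x i - W p x (i + 1)) = 1 - W p x n := by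
    intro n
    rw [sum_range_sub']
    simp [W]
  simp_rw [this]
  exact (tendsto_W hp x).const_sub 1


/-- the formula in terms of the partial products -/
noncomputable def F (p : ℕ → ℝ) (g : Gam d → ℂ) (x : Gam d) : ℂ :=
  (∑' s : ℕ, ((W p x s - W p x (s + 1) : ℝ) : ℂ) * g (T s x)) + (Winf p x : ℂ) * g (V x)

lemma summable_term (x : Gam d) {C : ℝ} {u : ℕ → ℂ} (hu : ∀ s, ‖u s‖ ≤ C) :
    Summable (fun s => ((W p x s - W p x (s + 1) : ℝ) : ℂ) * u s) := by
  refine Summable.of_norm_bounded (g := fun s => (W p x s - W p x (s + 1)) * C)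
    ((hasSum_W hp x).summable.mul_right C) fun s => ?_
  rw [norm_mul, Complex.norm_real, Real.norm_of_nonneg (sub_nonneg.2 (W_anti hp x s))]
  exact mul_le_mul_of_nonneg_left (hu s) (sub_nonneg.2 (W_anti hp x s))

omit hp in
lemma w_eq_one {x : Gam d} {s : ℕ} (h : ¬ AllMax x s) : w p x s = 1 := by
  simp [w, h]

omit hp in
lemma W_succ_eq {x : Gam d} {s : ℕ} (h : ¬ AllMax x s) : W p x s - W p x (s + 1) = 0 := by
  unfold W
  rw [prod_range_succ, w_eq_one h]; ring

lemma addingMachine_eq (g : Gam d → ℂ) {C : ℝ} (hg : ∀ x, ‖g x‖ ≤ C) (x : Gam d) :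
    addingMachine p g x = F p g x := by
  classical
  unfold addingMachine F
  rw [(summable_term hp x (u := fun s => g (T s x)) (fun s => hg _)).tsum_eq_zero_add]
  have h0 : T 0 x = x := by funext r; simp [T]
  have h1 : W p x 0 - W p x (0 + 1) = 1 - p 0 := by
    simp [W, w, AllMax]
  rw [h0, h1]
  have h2 : ∀ s, (if AllMax x (s + 1) then
      (((∏ r ∈ range (s + 1), p r) * (1 - p (s + 1)) : ℝ) : ℂ) * g (T (s + 1) x) else 0) =
      ((W p x (s + 1) - W p x (s + 1 + 1) : ℝ) : ℂ) * g (T (s + 1) x) := by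
    intro s
    split_ifs with h
    · congr 2
      unfold W
      rw [prod_range_succ _ (s + 1)]
      have h3 : w p x (s + 1) = p (s + 1) := by simp [w, h]
      have h4 : ∀ i ∈ range (s + 1), w p x i = p i := by
        intro i hi
        have : AllMax x i := fun j hj => h j (by rw [mem_range] at hi; omega)
        simp [w, this]
      rw [h3, prod_congr rfl h4]; ring
    · rw [W_succ_eq h]; simp
  have h6 : (∑' s : ℕ, if AllMax x (s + 1) then
      (((∏ r ∈ range (s + 1), p r) * (1 - p (s + 1)) : ℝ) : ℂ) * g (T (s + 1) x) else 0) =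
      ∑' s : ℕ, ((W p x (s + 1) - W p x (s + 1 + 1) : ℝ) : ℂ) * g (T (s + 1) x) := by
    refine tsum_congr fun s => ?_
    rw [← h2 s]
  have h5 : (∏' r : ℕ, (if AllMax x r then p r else 1) : ℝ) = Winf p x := by
    unfold Winf w
    refine tprod_congr fun r => ?_
    by_cases h : AllMax x r <;> simp [h]
  rw [← h6]
  have h7 : ∀ a b c e : ℂ, e = b → a * g x + e * g (V x) + c = a * g x + c + b * g (V x) := by
    intro a b c e h; rw [h]; ring
  convert h7 _ _ _ _ (congrArg (fun t : ℝ => (t : ℂ)) h5) using 0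

/-- `g` depends on the first `r` digits only. -/
def Dep (r : ℕ) (g : Gam d → ℂ) : Prop := ∀ x y : Gam d, (∀ i < r, x i = y i) → g x = g y

omit hp in
lemma agree_of_allMax {x : Gam d} {r s : ℕ} (h : AllMax x s) (hrs : r ≤ s) :
    ∀ i < r, T s x i = V x i := by
  intro i hi
  have h1 : AllMax x i := fun j hj => h j (by omega)
  have h2 := h i (by omega)
  have h3 : i < s := by omega
  simp only [T, V, h1, if_true, h2, h3]
  exact (Fin.last_add_one _).symm

lemma F_dep_eq {g : Gam d → ℂ} {C : ℝ} (hg : ∀ x, ‖g x‖ ≤ C) {r : ℕ} (hd : Dep r g)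
    (x : Gam d) :
    F p g x = ∑ s ∈ range r, ((W p x s - W p x (s + 1) : ℝ) : ℂ) * g (T s x) +
      (W p x r : ℂ) * g (V x) := by
  have hs1 := summable_term hp x (u := fun s => g (T s x)) (fun s => hg _)
  have hs2 := summable_term hp x (u := fun _ => g (V x)) (fun s => hg _)
  have h1 : ∑' s, (((W p x s - W p x (s + 1) : ℝ) : ℂ) * g (T s x) -
      ((W p x s - W p x (s + 1) : ℝ) : ℂ) * g (V x)) =
      ∑ s ∈ range r, (((W p x s - W p x (s + 1) : ℝ) : ℂ) * g (T s x) -
      ((W p x s - W p x (s + 1) : ℝ) : ℂ) * g (V x)) := by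
    refine tsum_eq_sum fun s hs => ?_
    rw [mem_range, not_lt] at hs
    by_cases h : AllMax x s
    · rw [hd _ _ (agree_of_allMax h hs)]; ring
    · rw [W_succ_eq h]; simp
  rw [hs1.tsum_sub hs2, tsum_mul_right] at h1
  have h2 : ∑' s, ((W p x s - W p x (s + 1) : ℝ) : ℂ) = ((1 - Winf p x : ℝ) : ℂ) := by
    have := (hasSum_W hp x).tsum_eq
    rw [← this, Complex.ofReal_tsum]
  rw [h2, sum_sub_distrib, ← sum_mul] at h1
  have h3 : ∑ s ∈ range r, ((W p x s - W p x (s + 1) : ℝ) : ℂ) = ((1 - W p x r : ℝ) : ℂ) := by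
    rw [← Complex.ofReal_sum, sum_range_sub']
    simp [W]
  rw [h3] at h1
  unfold F
  have h4 := eq_add_of_sub_eq h1
  rw [h4]
  push_cast
  ring

lemma norm_F_le {g : Gam d → ℂ} {C : ℝ} (hg : ∀ x, ‖g x‖ ≤ C) (x : Gam d) :
    ‖F p g x‖ ≤ C := by
  have hC : 0 ≤ C := (norm_nonneg _).trans (hg x)
  have h1 : ‖∑' s : ℕ, ((W p x s - W p x (s + 1) : ℝ) : ℂ) * g (T s x)‖ ≤
      (1 - Winf p x) * C := by
    refine tsum_of_norm_bounded ((hasSum_W hp x).mul_right C) fun s => ?_
    rw [norm_mul, Complex.norm_real, Real.norm_of_nonneg (sub_nonneg.2 (W_anti hp x s))]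
    exact mul_le_mul_of_nonneg_left (hg _) (sub_nonneg.2 (W_anti hp x s))
  have hW : 0 ≤ Winf p x := ge_of_tendsto' (tendsto_W hp x) fun s => (W_pos hp x s).le
  have h2 : ‖(Winf p x : ℂ) * g (V x)‖ ≤ Winf p x * C := by
    rw [norm_mul, Complex.norm_real, Real.norm_of_nonneg hW]
    exact mul_le_mul_of_nonneg_left (hg _) hW
  unfold F
  calc _ ≤ _ := norm_add_le _ _
    _ ≤ (1 - Winf p x) * C + Winf p x * C := add_le_add h1 h2
    _ = C := by ring

lemma F_add {g h : Gam d → ℂ} {C D : ℝ} (hg : ∀ x, ‖g x‖ ≤ C) (hh : ∀ x, ‖h x‖ ≤ D)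
    (x : Gam d) : F p (fun y => g y + h y) x = F p g x + F p h x := by
  unfold F
  have hs1 := summable_term hp x (u := fun s => g (T s x)) (fun s => hg _)
  have hs2 := summable_term hp x (u := fun s => h (T s x)) (fun s => hh _)
  simp_rw [mul_add]
  rw [hs1.tsum_add hs2]; ring

omit hp in
lemma F_smul (c : ℂ) (g : Gam d → ℂ) (x : Gam d) :
    F p (fun y => c * g y) x = c * F p g x := by
  unfold F
  have : ∀ s : ℕ, ((W p x s - W p x (s + 1) : ℝ) : ℂ) * (c * g (T s x)) =
      c * (((W p x s - W p x (s + 1) : ℝ) : ℂ) * g (T s x)) := fun s => by ring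
  simp_rw [this]
  rw [tsum_mul_left]; ring

omit hp in
lemma W_congr {x y : Gam d} {r : ℕ} (h : ∀ i < r, x i = y i) {s : ℕ} (hs : s ≤ r) :
    W p x s = W p y s := by
  unfold W
  refine prod_congr rfl fun i hi => ?_
  rw [mem_range] at hi
  have : AllMax x i ↔ AllMax y i := by
    constructor
    · intro h1 j hj; rw [← h j (by omega)]; exact h1 j hj
    · intro h1 j hj; rw [h j (by omega)]; exact h1 j hj
  by_cases h2 : AllMax x i
  · simp [w, h2, this.1 h2]
  · have h3 : ¬ AllMax y i := fun h3 => h2 (this.2 h3)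
    simp [w, h2, h3]

lemma F_dep {g : Gam d → ℂ} {C : ℝ} (hg : ∀ x, ‖g x‖ ≤ C) {r : ℕ} (hd : Dep r g) :
    Dep r (F p g) := by
  intro x y h
  rw [F_dep_eq hp hg hd, F_dep_eq hp hg hd]
  congr 1
  · refine sum_congr rfl fun s hs => ?_
    rw [mem_range] at hs
    rw [W_congr h hs.le, W_congr h (show s + 1 ≤ r by omega)]
    rw [hd (T s x) (T s y)]
    intro i hi
    simp [T, h i hi]
  · rw [W_congr h le_rfl, hd (V x) (V y)]
    intro i hi
    have : AllMax x i ↔ AllMax y i := by
      constructor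
      · intro h1 j hj; rw [← h j (by omega)]; exact h1 j hj
      · intro h1 j hj; rw [h j (by omega)]; exact h1 j hj
    by_cases h2 : AllMax x i
    · simp [V, h i hi, h2, this.1 h2]
    · have h3 : ¬ AllMax y i := fun h3 => h2 (this.2 h3)
      simp [V, h i hi, h2, h3]

end

/-- extension by zero of a finite string of digits -/
def ext (r : ℕ) (z : (i : Fin r) → Fin (d i + 2)) : Gam d :=
  fun i => if h : i < r then z ⟨i, h⟩ else 0

/-- the first `r` digits -/
def res (r : ℕ) (x : Gam d) : (i : Fin r) → Fin (d i + 2) := fun i => x i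

lemma continuous_res (r : ℕ) : Continuous (res (d := d) r) :=
  continuous_pi fun _ => continuous_apply _

lemma dep_eq {r : ℕ} {g : Gam d → ℂ} (hd : Dep r g) (x : Gam d) : g x = g (ext r (res r x)) := by
  apply hd
  intro i hi
  simp [ext, res, hi]

lemma dep_continuous {r : ℕ} {g : Gam d → ℂ} (hd : Dep r g) : Continuous g := by
  have : g = (fun z => g (ext r z)) ∘ res r := by
    funext x; exact dep_eq hd x
  rw [this]
  exact continuous_of_discreteTopology.comp (continuous_res r)

lemma dep_comp (g : Gam d → ℂ) (r : ℕ) : Dep r (fun x => g (ext r (res r x))) := by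
  intro x y h
  have : res r x = res r y := by funext i; exact h i i.2
  simp [this]

/-- Approximation by functions of finitely many digits. -/
lemma approx {g : Gam d → ℂ} (hg : Continuous g) {ε : ℝ} (hε : 0 < ε) :
    ∃ r, ∀ x, ‖g x - g (ext r (res r x))‖ < ε := by
  by_contra hcon
  push Not at hcon
  choose x hx using hcon
  obtain ⟨a, -, ha⟩ := isCompact_univ.ultrafilter_le_nhds ((hyperfilter ℕ).map x) (by simp)
  have h1 : Tendsto x (hyperfilter ℕ : Filter ℕ) (𝓝 a) := ha
  have h2 : Tendsto (fun r => ext r (res r (x r))) (hyperfilter ℕ : Filter ℕ) (𝓝 a) := by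
    rw [tendsto_pi_nhds] at h1 ⊢
    intro i
    refine (h1 i).congr' ?_
    have : ∀ᶠ r in (hyperfilter ℕ : Filter ℕ), i < r := by
      have h3 : ∀ᶠ r in (atTop : Filter ℕ), i < r := eventually_gt_atTop i
      rw [← Nat.cofinite_eq_atTop] at h3
      exact h3.filter_mono (hyperfilter_le_cofinite)
    filter_upwards [this] with r hr
    simp [ext, res, hr]
  have h3 := ((hg.tendsto a).comp h1).sub ((hg.tendsto a).comp h2)
  rw [sub_self] at h3
  have h4 := h3.norm
  rw [norm_zero] at h4
  have h5 : ∀ᶠ r in (hyperfilter ℕ : Filter ℕ), ‖g (x r) - g (ext r (res r (x r)))‖ < ε :=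
    h4.eventually (gt_mem_nhds hε)
  obtain ⟨r, hr⟩ := h5.exists
  exact absurd hr (not_lt.2 (hx r))

section
variable {p : ℕ → ℝ} (hp : ∀ r, 0 < p r ∧ p r ≤ 1)
include hp

lemma F_continuous {g : Gam d → ℂ} (hg : Continuous g) : Continuous (F p g) := by
  obtain ⟨C, hC⟩ : ∃ C, ∀ x, ‖g x‖ ≤ C := ⟨‖(⟨g, hg⟩ : C(Gam d, ℂ))‖,
    fun x => (⟨g, hg⟩ : C(Gam d, ℂ)).norm_coe_le_norm x⟩
  refine continuous_of_uniform_approx_of_continuous fun u hu => ?_
  obtain ⟨ε, hε, hu'⟩ := Metric.mem_uniformity_dist.1 hu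
  obtain ⟨r, hr⟩ := approx hg (half_pos hε)
  have hdep := dep_comp g r
  have hb : ∀ x, ‖(fun x => g (ext r (res r x))) x‖ ≤ C := fun x => hC _
  refine ⟨F p (fun x => g (ext r (res r x))), dep_continuous (F_dep hp hb hdep), fun y => ?_⟩
  apply hu'
  rw [dist_eq_norm]
  have h1 : F p g y - F p (fun x => g (ext r (res r x))) y =
      F p (fun x => g x - g (ext r (res r x))) y := by
    have h2 := F_add hp (g := fun x => g x - g (ext r (res r x)))
      (h := fun x => g (ext r (res r x))) (C := ε / 2) (D := C) (fun x => (hr x).le) hb y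
    simp only [sub_add_cancel] at h2
    rw [h2]; ring
  rw [h1]
  have := norm_F_le hp (g := fun x => g x - g (ext r (res r x))) (fun x => (hr x).le) y
  linarith

omit hp in
lemma bdd (g : C(Gam d, ℂ)) (x : Gam d) : ‖g x‖ ≤ ‖g‖ := g.norm_coe_le_norm x

/-- the operator -/
noncomputable def op : C(Gam d, ℂ) →L[ℂ] C(Gam d, ℂ) :=
  LinearMap.mkContinuous
    { toFun := fun g => ⟨F p g, F_continuous hp g.continuous⟩
      map_add' := fun g h => by
        ext x
        exact F_add hp (bdd g) (bdd h) x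
      map_smul' := fun c g => by
        ext x
        exact F_smul c g x } 1
    (fun g => by
      rw [one_mul]
      exact (ContinuousMap.norm_le _ (norm_nonneg _)).2 fun x => norm_F_le hp (bdd g) x)

lemma op_apply (g : C(Gam d, ℂ)) (x : Gam d) : op hp g x = F p g x := rfl

omit hp in
/-- functions of the first `r` digits -/
def Vr (d : ℕ → ℕ) (r : ℕ) : Submodule ℂ C(Gam d, ℂ) where
  carrier := {g | Dep r g}
  add_mem' := by
    intro g h hg hh x y hxy
    have h1 := hg x y hxy
    have h2 := hh x y hxy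
    simp [h1, h2]
  zero_mem' := by intro x y _; rfl
  smul_mem' := by
    intro c g hg x y hxy
    have h1 := hg x y hxy
    simp [h1]

omit hp in
lemma finite_Vr (r : ℕ) : Module.Finite ℂ (Vr d r) := by
  let φ : Vr d r →ₗ[ℂ] (((i : Fin r) → Fin (d i + 2)) → ℂ) :=
    { toFun := fun g z => g.1 (ext r z)
      map_add' := fun g h => rfl
      map_smul' := fun c g => rfl }
  refine Module.Finite.of_injective φ ?_
  intro g h hgh
  apply Subtype.ext
  ext x
  have h1 : g.1 x = g.1 (ext r (res r x)) := dep_eq g.2 x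
  have h2 : h.1 x = h.1 (ext r (res r x)) := dep_eq h.2 x
  rw [h1, h2]
  exact congrFun hgh (res r x)

end

/-- **The residual spectrum is empty.** For all sequences of bases `≥ 2` and all sequences
`p r ∈ (0, 1]`, the formula of the stochastic adding machine defines a bounded operator of norm
at most `1` on the space of continuous functions, and its residual spectrum is empty. -/
theorem result (d : ℕ → ℕ) (p : ℕ → ℝ) (hp : ∀ r, 0 < p r ∧ p r ≤ 1) :
    ∃ S : C(Gam d, ℂ) →L[ℂ] C(Gam d, ℂ), (∀ g x, S g x = addingMachine p g x) ∧ ‖S‖ ≤ 1 ∧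
      residualSpectrum S = ∅ := by
  refine ⟨op hp, fun g x => ?_, LinearMap.mkContinuous_norm_le _ zero_le_one _, ?_⟩
  · rw [addingMachine_eq hp g (bdd g) x]; rfl
  · rw [Set.eq_empty_iff_forall_notMem]
    rintro l ⟨hinj, hcl⟩
    apply hcl
    set A := op hp - l • ContinuousLinearMap.id ℂ C(Gam d, ℂ) with hA
    have hmap : ∀ r, ∀ g ∈ Vr d r, A g ∈ Vr d r := by
      intro r g hg
      have h1 : op hp g ∈ Vr d r := F_dep hp (bdd g) hg
      have h2 : l • g ∈ Vr d r := (Vr d r).smul_mem l hg
      exact (Vr d r).sub_mem h1 h2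
    have hsurj : ∀ r, ∀ g ∈ Vr d r, g ∈ Set.range A := by
      intro r g hg
      have := finite_Vr (d := d) r
      let B : Vr d r →ₗ[ℂ] Vr d r := (A : C(Gam d, ℂ) →ₗ[ℂ] C(Gam d, ℂ)).restrict (hmap r)
      have hB : Function.Injective B := by
        intro u v huv
        apply Subtype.ext
        apply hinj
        exact congrArg Subtype.val huv
      obtain ⟨u, hu⟩ := (LinearMap.injective_iff_surjective.1 hB) ⟨g, hg⟩
      exact ⟨u.1, congrArg Subtype.val hu⟩
    rw [Set.eq_univ_iff_forall]
    intro g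
    rw [Metric.mem_closure_iff]
    intro ε hε
    obtain ⟨r, hr⟩ := approx g.continuous (half_pos hε)
    have hdep := dep_comp (g : Gam d → ℂ) r
    refine ⟨⟨_, dep_continuous hdep⟩, hsurj r _ hdep, ?_⟩
    rw [dist_eq_norm]
    refine lt_of_le_of_lt ((ContinuousMap.norm_le _ (half_pos hε).le).2 fun x => ?_)
      (half_lt_self hε)
    exact (hr x).le

end Pool.Agent.Results.MP_8907f9_an.ResidualEmpty
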